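import Pool.Agent.H18.VZ.Targets
import Pool.Agent.H18.HX.Basic

set_option autoImplicit false

open MvPolynomial
open Pool.Agent.H12.ZD (pmap)
open Pool.Agent.H18.HIT Pool.Agent.H18.HX Pool.Agent.H18.VZ

namespace Pool.Agent.H60.VZ

section hom

variable {L : ℕ} {k : Type} [Field k]

theorem hc_mul (n y : ℕ) (a b : Po L k) (hb : b.IsHomogeneous y) :
    homogeneousComponent (n + y) (a * b) = homogeneousComponent n a * b := by
  conv_lhs => rw [← sum_homogeneousComponent a, Finset.sum_mul, map_sum]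
  have h1 : ∀ i, homogeneousComponent (n + y) (homogeneousComponent i a * b) =
      if i = n then homogeneousComponent n a * b else 0 := by
    intro i
    have h2 : homogeneousComponent i a * b ∈ homogeneousSubmodule (Fin L) k (i + y) :=
      (homogeneousComponent_isHomogeneous i a).mul hb
    rw [homogeneousComponent_of_mem h2]
    by_cases h : i = n
    · subst h
      rw [if_pos rfl, if_pos rfl]
    · rw [if_neg (by omega), if_neg h]
  rw [Finset.sum_congr rfl fun i _ => h1 i, Finset.sum_ite_eq' (Finset.range _) n]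
  split_ifs with h
  · rfl
  · rw [Finset.mem_range] at h
    rw [homogeneousComponent_eq_zero _ _ (by omega), zero_mul]

theorem hc_mul_lt (n y : ℕ) (a b : Po L k) (hb : b.IsHomogeneous y) (h : n < y) :
    homogeneousComponent n (a * b) = 0 := by
  conv_lhs => rw [← sum_homogeneousComponent a, Finset.sum_mul, map_sum]
  refine Finset.sum_eq_zero fun i _ => ?_
  have h2 : homogeneousComponent i a * b ∈ homogeneousSubmodule (Fin L) k (i + y) :=
    (homogeneousComponent_isHomogeneous i a).mul hb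
  rw [homogeneousComponent_of_mem h2, if_neg (by omega)]

theorem dvd_hc {r : ℕ} {P : Po L k} (hP : P.IsHomogeneous r) {c : Po L k} (h : P ∣ c) (n : ℕ) :
    P ∣ homogeneousComponent n c := by
  obtain ⟨a, rfl⟩ := h
  rw [mul_comm]
  by_cases hn : r ≤ n
  · obtain ⟨t, rfl⟩ := Nat.exists_eq_add_of_le hn
    rw [add_comm r t, hc_mul _ _ _ _ hP]
    exact dvd_mul_left _ _
  · rw [hc_mul_lt _ _ _ _ hP (by omega)]
    exact dvd_zero _

theorem td_le_of_hc (n : ℕ) (a : Po L k) : (homogeneousComponent n a).totalDegree ≤ n :=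
  (homogeneousComponent_isHomogeneous n a).totalDegree_le

end hom

section fam

variable {N r d : ℕ} {k : Type} [Field k] {P : Po (N + 1) k} {F : Tup (N + 1) k}

theorem dd_hom (hP : P.IsHomogeneous r) (hF : ∀ i, (F i).IsHomogeneous d) (i : Fin (N + 1))
    (j : Fin N) (y : ℕ) (b : Po (N + 1) k) (hb : b.IsHomogeneous y) :
    (b * dd P j (F i)).IsHomogeneous (y - 1 + (r - 1) + d) ∨ (y = 0 ∨ d = 0) := by
  by_cases hy : y = 0
  · exact Or.inr (Or.inl hy)
  by_cases hd : d = 0
  · exact Or.inr (Or.inr hd)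
  left
  have h1 : (dd P j (F i)).IsHomogeneous ((r - 1) + (d - 1)) := by
    unfold dd
    rw [Derivation.sub_apply, Derivation.smul_apply, Derivation.smul_apply, smul_eq_mul,
      smul_eq_mul]
    exact (hP.pderiv.mul (hF i).pderiv).sub (hP.pderiv.mul (hF i).pderiv)
  have h2 := hb.mul h1
  have h3 : y + (r - 1 + (d - 1)) = y - 1 + (r - 1) + d := by omega
  rwa [h3] at h2

theorem dd_zero (hF : ∀ i, (F i).IsHomogeneous 0) (i : Fin (N + 1)) (j : Fin N) :
    dd P j (F i) = 0 := by
  have h1 : F i = C (coeff 0 (F i)) := by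
    have h2 : (F i).totalDegree = 0 := Nat.le_zero.1 (hF i).totalDegree_le
    exact totalDegree_eq_zero_iff_eq_C.1 h2
  rw [h1]
  unfold dd
  rw [Derivation.sub_apply, Derivation.smul_apply, Derivation.smul_apply, pderiv_C, pderiv_C]
  simp

theorem aeval_hom {m : ℕ} (hF : ∀ i, (F i).IsHomogeneous d) {a : Po (N + 1) k}
    (ha : a.IsHomogeneous m) : (aeval F a).IsHomogeneous (d * m) := ha.aeval F hF

theorem ye_hom (hP : P.IsHomogeneous r) (hF : ∀ i, (F i).IsHomogeneous d) {m : ℕ}
    {a : Fin N → Po (N + 1) k} {w : Po (N + 1) k} (ha : ∀ i, (a i).IsHomogeneous m)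
    (hw : w.IsHomogeneous (m + 1)) (j : Fin N) :
    (Ye P F a w j).IsHomogeneous (m + d * (m + 1) + (r - 1)) := by
  unfold Ye
  refine IsHomogeneous.sub ?_ (((ha j).mul (aeval_hom hF hw)).mul hP.pderiv)
  by_cases hd : d = 0
  · subst hd
    have h1 : ∑ i, aeval F (a i) * dd P j (F i.succ) = 0 :=
      Finset.sum_eq_zero fun i _ => by rw [dd_zero hF, mul_zero]
    rw [h1, mul_zero]
    exact isHomogeneous_zero _ _ _
  · rw [Finset.mul_sum]
    refine IsHomogeneous.sum _ _ _ fun i _ => ?_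
    have h1 : (w * aeval F (a i)).IsHomogeneous ((m + 1) + d * m) := hw.mul (aeval_hom hF (ha i))
    rcases dd_hom (F := F) hP hF i.succ j _ _ h1 with h2 | h2
    · rw [mul_assoc] at h2
      have h3 : m + 1 + d * m - 1 + (r - 1) + d = m + d * (m + 1) + (r - 1) := by
        rw [mul_add]; omega
      rwa [h3] at h2
    · omega

theorem we_hom (hP : P.IsHomogeneous r) (hF : ∀ i, (F i).IsHomogeneous d) {m : ℕ}
    {w : Po (N + 1) k} (hw : w.IsHomogeneous (m + 1)) :
    (We P F w).IsHomogeneous (m + d * (m + 1) + (r - 1) + 1) := by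
  unfold We
  have h1 := ((aeval_hom hF hw).mul hw).mul (hP.pderiv (i := (0 : Fin (N + 1))))
  have h2 : d * (m + 1) + (m + 1) + (r - 1) = m + d * (m + 1) + (r - 1) + 1 := by omega
  rwa [h2] at h1

/-- a form `G` and forms `u` of bounded degree -/
theorem eta_hom (hP : P.IsHomogeneous r) (hF : ∀ i, (F i).IsHomogeneous d) {m t : ℕ}
    {a : Fin N → Po (N + 1) k} {w G v : Po (N + 1) k} (ha : ∀ i, (a i).IsHomogeneous m)
    (hw : w.IsHomogeneous (m + 1)) (j : Fin N) (h : P ∣ G * Ye P F a w j - We P F w * v) :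
    ∃ u : Po (N + 1) k, u.totalDegree ≤ t ∧
      P ∣ homogeneousComponent t G * Ye P F a w j - We P F w * u := by
  have h1 := dvd_hc hP h (t + (m + d * (m + 1) + (r - 1)))
  rw [map_sub, hc_mul _ _ _ _ (ye_hom hP hF ha hw j), mul_comm (We P F w)] at h1
  cases t with
  | zero =>
    rw [hc_mul_lt _ _ _ _ (we_hom hP hF hw) (by omega)] at h1
    exact ⟨0, by simp, by rwa [mul_zero]⟩
  | succ t =>
    have h2 : t + 1 + (m + d * (m + 1) + (r - 1)) = t + (m + d * (m + 1) + (r - 1) + 1) := by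
      omega
    have h3 : homogeneousComponent (t + 1 + (m + d * (m + 1) + (r - 1))) (v * We P F w) =
        homogeneousComponent t v * We P F w := by
      rw [h2, hc_mul _ _ _ _ (we_hom hP hF hw)]
    rw [h3] at h1
    exact ⟨homogeneousComponent t v, (td_le_of_hc t v).trans (Nat.le_succ t), by
      rwa [mul_comm (We P F w)]⟩

end fam

/-- choose many totally invariant hypersurfaces -/
theorem many {N e : ℕ} {k : Type} [Field k] {P : Po (N + 1) k} {F : Tup (N + 1) k}
    {θ : Po (N + 1) k} {g₀ : Po N k} (hg₀ : g₀ ≠ 0)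
    (hcon : ∀ g : Po N k, g ≠ 0 → ∃ (H : Ideal (Po (N + 1) k)) (h : Po N k), Pdv P H h ∧ Hmi H ∧
      Tot P F e θ H ∧ up g ∉ H) (s : ℕ) :
    ∃ (H : Fin s → Ideal (Po (N + 1) k)) (h : Fin s → Po N k), (∀ l, Pdv P (H l) (h l)) ∧
      (∀ l, Hmi (H l)) ∧ (∀ l, Tot P F e θ (H l)) ∧ (∀ l, ¬ h l ∣ g₀) ∧
      ∀ l l', l ≠ l' → ¬ h l ∣ h l' := by
  induction s with
  | zero =>
    exact ⟨fun l => l.elim0, fun l => l.elim0, fun l => l.elim0, fun l => l.elim0,
      fun l => l.elim0, fun l => l.elim0, fun l => l.elim0⟩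
  | succ s ih =>
    obtain ⟨H, h, h1, h2, h3, h4, h5⟩ := ih
    have hne : g₀ * ∏ l, h l ≠ 0 :=
      mul_ne_zero hg₀ (Finset.prod_ne_zero_iff.2 fun l _ => (h1 l).irr.ne_zero)
    obtain ⟨H', h', h6, h7, h8, h9⟩ := hcon _ hne
    rw [h6.iff] at h9
    have h10 : ¬ h' ∣ g₀ := fun h => h9 (h.mul_right _)
    have h11 : ∀ l, ¬ h' ∣ h l := fun l hl =>
      h9 ((hl.trans (Finset.dvd_prod_of_mem h (Finset.mem_univ l))).mul_left _)
    have h12 : ∀ l, ¬ h l ∣ h' := fun l hl => h11 l ((h1 l).irr.dvd_symm h6.irr hl)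
    refine ⟨Fin.cons H' H, Fin.cons h' h, ?_, ?_, ?_, ?_, ?_⟩
    · intro l
      refine Fin.cases ?_ (fun l => ?_) l
      · exact h6
      · exact h1 l
    · intro l
      refine Fin.cases ?_ (fun l => ?_) l
      · exact h7
      · exact h2 l
    · intro l
      refine Fin.cases ?_ (fun l => ?_) l
      · exact h8
      · exact h3 l
    · intro l
      refine Fin.cases ?_ (fun l => ?_) l
      · exact h10
      · exact h4 l
    · intro l l'
      refine Fin.cases ?_ (fun l => ?_) l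
      · refine Fin.cases ?_ (fun l' => ?_) l'
        · intro h; exact absurd rfl h
        · intro _; exact h11 l'
      · refine Fin.cases ?_ (fun l' => ?_) l'
        · intro _; exact h12 l
        · intro h; exact h5 l l' (fun h' => h (by rw [h']))

/-- many relations -/
theorem kern {k V : Type} [Field k] [AddCommGroup V] [Module k V] [Module.Finite k V] (N : ℕ)
    {s : ℕ} (hs : N * Module.finrank k V + N + 1 ≤ s) (u : Fin s → Fin N → V) :
    ∃ lam : Fin (N + 1) → Fin s → k, LinearIndependent k lam ∧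
      ∀ μ j, ∑ l, lam μ l • u l j = 0 := by
  let f : (Fin s → k) →ₗ[k] (Fin N → V) := LinearMap.pi fun j =>
    ∑ l, (LinearMap.toSpanSingleton k V (u l j)).comp (LinearMap.proj l)
  have hf : ∀ lam j, f lam j = ∑ l, lam l • u l j := by
    intro lam j
    simp [f, LinearMap.sum_apply]
  have h1 := LinearMap.finrank_range_add_finrank_ker f
  have h2 : Module.finrank k (LinearMap.range f) ≤ N * Module.finrank k V := by
    refine (Submodule.finrank_le _).trans ?_
    rw [Module.finrank_pi_fintype, Finset.sum_const, Finset.card_univ, Fintype.card_fin,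
      smul_eq_mul]
  rw [Module.finrank_fin_fun] at h1
  have h3 : N + 1 ≤ Module.finrank k (LinearMap.ker f) := by omega
  obtain ⟨lam, hlam⟩ := exists_linearIndependent_of_le_finrank h3
  refine ⟨fun μ => (lam μ : Fin s → k), ?_, ?_⟩
  · exact hlam.map' (LinearMap.ker f).subtype (Submodule.ker_subtype _)
  · intro μ j
    rw [← hf, LinearMap.mem_ker.1 (lam μ).2]
    rfl

theorem inv_alg {R ι : Type} [CommRing R] [Fintype ι] (P Gt W FW Px : R)
    (c E Fl w fw S al u : ι → R) (hW : ∀ l, E l * w l = W) (hF : ∀ l, Fl l * fw l = FW)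
    (hu : ∀ l, P ∣ Gt * (w l * S l - al l * fw l * Px) - fw l * w l * Px * u l)
    (hrel : ∑ l, c l * u l = 0) :
    P ∣ Gt * (W * ∑ l, c l * Fl l * S l - (∑ l, c l * al l * E l) * FW * Px) := by
  have h1 : Gt * (W * ∑ l, c l * Fl l * S l - (∑ l, c l * al l * E l) * FW * Px) =
      ∑ l, c l * E l * Fl l * (Gt * (w l * S l - al l * fw l * Px) - fw l * w l * Px * u l) +
        W * FW * Px * ∑ l, c l * u l := by
    rw [Finset.mul_sum, Finset.mul_sum, Finset.sum_mul, Finset.sum_mul, ← Finset.sum_sub_distrib,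
      Finset.mul_sum, ← Finset.sum_add_distrib]
    refine Finset.sum_congr rfl fun l _ => ?_
    rw [← hF l]
    have h2 : W = E l * w l := (hW l).symm
    rw [h2]
    ring
  rw [h1, hrel, mul_zero, add_zero]
  exact Finset.dvd_sum fun l _ => (hu l).mul_left _

theorem sum_alg {K R ι κ : Type} [CommRing K] [CommRing R] [Algebra K R] [Fintype ι] [Fintype κ]
    (φ : R →ₐ[K] R) (c E : ι → R) (hc : ∀ l, φ (c l) = c l) (a : ι → κ → R) (D : κ → R) :
    ∑ i, φ (∑ l, c l * a l i * E l) * D i = ∑ l, c l * φ (E l) * ∑ i, φ (a l i) * D i := by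
  have h1 : ∀ i, φ (∑ l, c l * a l i * E l) * D i = ∑ l, c l * φ (E l) * (φ (a l i) * D i) := by
    intro i
    rw [map_sum, Finset.sum_mul]
    refine Finset.sum_congr rfl fun l _ => ?_
    rw [map_mul, map_mul, hc]
    ring
  rw [Finset.sum_congr rfl fun i _ => h1 i, Finset.sum_comm]
  refine Finset.sum_congr rfl fun l _ => ?_
  rw [Finset.mul_sum]

theorem lin_alg {R ι κ : Type} [CommRing R] [Fintype ι] [Fintype κ]
    (c : κ → R) (lam : κ → ι → R) (a E : ι → R) :
    ∑ l, (∑ μ, c μ * lam μ l) * a l * E l = ∑ μ, c μ * ∑ l, lam μ l * a l * E l := by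
  have h1 : ∀ l, (∑ μ, c μ * lam μ l) * a l * E l = ∑ μ, c μ * (lam μ l * a l * E l) := by
    intro l
    rw [Finset.sum_mul, Finset.sum_mul]
    refine Finset.sum_congr rfl fun μ _ => ?_
    ring
  rw [Finset.sum_congr rfl fun l _ => h1 l, Finset.sum_comm]
  refine Finset.sum_congr rfl fun l _ => ?_
  rw [Finset.mul_sum]

theorem pf_INV (hSPX : T_SPX) (hFRM : T_FRM) (hETA : T_ETA) (hIND : Pool.Agent.H18.VZ.T_IND) (hREL : T_REL) :
    T_INV := by
  classical
  intro N r d e k _ _ _ P F θ Δ hP hF hS hB hN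
  by_contra hcon
  push Not at hcon
  have hcon' : ∀ g : Po N k, g ≠ 0 → ∃ (H : Ideal (Po (N + 1) k)) (h : Po N k), Pdv P H h ∧
      Hmi H ∧ Tot P F e θ H ∧ up g ∉ H := by
    intro g hg
    obtain ⟨H, h, h1, h2, h3, h4⟩ := hcon g hg
    exact ⟨H, h, h1, h2, h3, h4⟩
  obtain ⟨ρ, A, B, hρ, hρAB⟩ := hSPX N r k P hP
  obtain ⟨g₀, G, hg₀, hG, heta⟩ := hETA N r e k P F θ Δ hP hS hB
  have hPp : Prime P := hP.irr.prime
  -- a homogeneous component of `G`
  obtain ⟨t, ht⟩ : ∃ t, ¬ P ∣ homogeneousComponent t G := by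
    by_contra h
    push Not at h
    apply hG
    rw [← sum_homogeneousComponent G]
    exact Finset.dvd_sum fun i _ => h i
  -- the hypersurfaces
  obtain ⟨s, hs⟩ : ∃ s, s = N * Module.finrank k (restrictTotalDegree (Fin (N + 1)) k t) + N + 1 :=
    ⟨_, rfl⟩
  obtain ⟨H, h, h1, h2, h3, h4, h5⟩ := many (mul_ne_zero hg₀ hρ) hcon' s
  have hL : ∀ l, ∃ (a : Fin N → Po (N + 1) k) (w : Po (N + 1) k) (m : ℕ),
      Lfm P (H l) (h l) a w m := fun l => hFRM N r k P (H l) (h l) hP (h1 l) (h2 l)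
  choose a w m hL using hL
  have hU : ∀ l j, ∃ u : restrictTotalDegree (Fin (N + 1)) k t,
      P ∣ homogeneousComponent t G * Ye P F (a l) (w l) j - We P F (w l) * (u : Po (N + 1) k) := by
    intro l j
    have hg : up g₀ ∉ H l := by
      rw [(h1 l).iff]
      exact fun h' => h4 l (h'.mul_right _)
    obtain ⟨v, hv⟩ := heta (H l) (h l) (a l) (w l) (m l) (h1 l) (h3 l) hg (hL l) j
    obtain ⟨u, hu, hu2⟩ := eta_hom (t := t) hP.hom hF (hL l).ah (hL l).wh j hv
    exact ⟨⟨u, (mem_restrictTotalDegree _ _ _).2 hu⟩, hu2⟩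
  choose u hu using hU
  obtain ⟨lam, hlam, hrel⟩ := kern N hs.ge u
  have hrel' : ∀ μ j, ∑ l, C (lam μ l) * (u l j : Po (N + 1) k) = 0 := by
    intro μ j
    have h6 := congrArg (fun x : restrictTotalDegree (Fin (N + 1)) k t => (x : Po (N + 1) k))
      (hrel μ j)
    simpa [MvPolynomial.smul_eq_C_mul] using h6
  -- the forms
  have hmul : ∀ l, (∏ l' ∈ Finset.univ.erase l, w l') * w l = ∏ l', w l' := fun l =>
    Finset.prod_erase_mul _ _ (Finset.mem_univ l)
  have hdeg : ∀ l, (∑ l' ∈ Finset.univ.erase l, (m l' + 1)) + (m l + 1) = ∑ l', (m l' + 1) :=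
    fun l => Finset.sum_erase_add _ _ (Finset.mem_univ l)
  refine hREL N r d (∑ l', (m l' + 1) - 1) k P F
    (fun μ i => ∑ l, C (lam μ l) * a l i * ∏ l' ∈ Finset.univ.erase l, w l')
    (∏ l, w l) hP hF hS ?_ ?_ ?_ ?_ hN
  · rw [Prime.dvd_finsetProd_iff hPp]
    rintro ⟨l, -, hl⟩
    exact (hL l).ne hl
  · intro μ i
    refine IsHomogeneous.sum _ _ _ fun l _ => ?_
    have h6 : (∏ l' ∈ Finset.univ.erase l, w l').IsHomogeneous
        (∑ l' ∈ Finset.univ.erase l, (m l' + 1)) :=
      IsHomogeneous.prod _ _ _ fun l' _ => (hL l').wh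
    have h7 := ((isHomogeneous_C _ (lam μ l)).mul ((hL l).ah i)).mul h6
    have h8 : 0 + m l + ∑ l' ∈ Finset.univ.erase l, (m l' + 1) = ∑ l', (m l' + 1) - 1 := by
      rw [← hdeg l]; omega
    rwa [h8] at h7
  · intro μ j
    have h6 := inv_alg P (homogeneousComponent t G) (∏ l, w l) (aeval F (∏ l, w l))
      (pderiv 0 P) (fun l => C (lam μ l)) (fun l => ∏ l' ∈ Finset.univ.erase l, w l')
      (fun l => aeval F (∏ l' ∈ Finset.univ.erase l, w l')) w (fun l => aeval F (w l))
      (fun l => ∑ i, aeval F (a l i) * dd P j (F i.succ)) (fun l => a l j)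
      (fun l => (u l j : Po (N + 1) k)) hmul (fun l => by rw [← map_mul, hmul])
      (fun l => hu l j) (hrel' μ j)
    rw [← sum_alg (aeval F) (fun l => C (lam μ l)) (fun l => ∏ l' ∈ Finset.univ.erase l, w l')
      (fun l => aeval_C F (lam μ l)) a (fun i => dd P j (F i.succ))] at h6
    exact (hPp.dvd_or_dvd h6).resolve_left ht
  · intro c hc
    have h6 := hIND N r s k P ρ A B H h a w m hP hρAB h1
      (fun l h' => h4 l (h'.mul_left _)) h5 hL (fun l => ∑ μ, c μ * lam μ l) (by
        intro i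
        have h7 := lin_alg (fun μ => C (c μ)) (fun μ l => C (lam μ l)) (fun l => a l i)
          (fun l => ∏ l' ∈ Finset.univ.erase l, w l')
        have h8 : ∀ l, C (∑ μ, c μ * lam μ l) = ∑ μ, C (c μ) * (C (lam μ l) : Po (N + 1) k) := by
          intro l
          rw [map_sum]
          exact Finset.sum_congr rfl fun μ _ => map_mul _ _ _
        simp only [h8]
        rw [h7]
        exact hc i)
    have h7 : ∑ μ, c μ • lam μ = 0 := by
      funext l
      have h8 := congrFun h6 l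
      simpa using h8
    funext μ
    exact Fintype.linearIndependent_iff.1 hlam c h7 μ

end Pool.Agent.H60.VZ
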